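import Pool.Agent.Work.MP_c20ce7_dm82.ChartDefs
import Pool.Agent.Work.MP_c20ce7_dm70.S10
import Pool.Agent.Work.MP_c20ce7_tg.Interface

set_option autoImplicit false

/-! The label `N0` of the base case from the slice. -/

open MvPolynomial Matrix

noncomputable section

namespace Pool.DM.BS3

/-- The base point of the chart. -/
def bp0 : Tau → ℂ := fun v =>
  if (v.1 = .a ∨ v.1 = .q ∨ v.1 = .u ∨ v.1 = .l) ∧ v.2.1 = v.2.2 then 1 else 0

/-- The boxes of `ksN`. -/
def sgN0 : I0 → Fin 8 := fun b =>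
  ![![0, 1], ![0, 1], ![2, 3], ![2, 3], ![4, 5], ![2, 3], ![6, 7], ![6, 7]] b.1 b.2

/-- The boxes of `ksM`. -/
def sgM0 : I0 → Fin 6 := fun b =>
  ![![0, 1], ![0, 1], ![2, 3], ![1, 2], ![3, 4], ![1, 3], ![4, 5], ![3, 5]] b.1 b.2

theorem boxing_N0 : Boxing e0 ksN sgN0 where
  inj := by unfold e0 dg0 sgN0; decide
  mem := by unfold e0 dg0 sgN0 ksN; decide
  ex := by
    intro k j h1 h2
    have h3 : 1 ≤ j := by
      have : ∀ k, 1 ≤ (ksN k).1 := by unfold ksN; decide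
      exact (this k).trans h1
    have h4 : j ≤ 5 := by
      have : ∀ k, (ksN k).2 ≤ 5 := by unfold ksN; decide
      exact h2.trans (this k)
    have h5 : ∀ k : Fin 8, ∀ j : Fin 5, (ksN k).1 ≤ (j : ℤ) + 1 → (j : ℤ) + 1 ≤ (ksN k).2 →
        ∃ a : I0, sgN0 a = k ∧ e0 a = (j : ℤ) + 1 := by
      unfold ksN sgN0 e0 dg0
      decide
    obtain ⟨n, rfl⟩ : ∃ n : ℕ, j = n + 1 := ⟨(j - 1).toNat, by omega⟩
    exact h5 k ⟨n, by omega⟩ h1 h2

theorem boxing_M0 : Boxing e0 ksM sgM0 where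
  inj := by unfold e0 dg0 sgM0; decide
  mem := by unfold e0 dg0 sgM0 ksM; decide
  ex := by
    intro k j h1 h2
    have h3 : 1 ≤ j := by
      have : ∀ k, 1 ≤ (ksM k).1 := by unfold ksM; decide
      exact (this k).trans h1
    have h4 : j ≤ 5 := by
      have : ∀ k, (ksM k).2 ≤ 5 := by unfold ksM; decide
      exact h2.trans (this k)
    have h5 : ∀ k : Fin 6, ∀ j : Fin 5, (ksM k).1 ≤ (j : ℤ) + 1 → (j : ℤ) + 1 ≤ (ksM k).2 →
        ∃ a : I0, sgM0 a = k ∧ e0 a = (j : ℤ) + 1 := by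
      unfold ksM sgM0 e0 dg0
      decide
    obtain ⟨n, rfl⟩ : ∃ n : ℕ, j = n + 1 := ⟨(j - 1).toNat, by omega⟩
    exact h5 k ⟨n, by omega⟩ h1 h2

/-- The value of a matrix of chart polynomials at the base point. -/
def evM (M : Matrix (Fin 2) (Fin 2) Ach) : Matrix (Fin 2) (Fin 2) ℂ := M.map (eval bp0)

/-- The derivative of a matrix of chart polynomials at the base point. -/
def dvM (v : Tau) (M : Matrix (Fin 2) (Fin 2) Ach) : Matrix (Fin 2) (Fin 2) ℂ :=
  M.map fun P => eval bp0 (pderiv v P)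

theorem evM_mul (M N : Matrix (Fin 2) (Fin 2) Ach) : evM (M * N) = evM M * evM N := by
  ext i j
  simp [evM, Matrix.mul_apply]

theorem evM_add (M N : Matrix (Fin 2) (Fin 2) Ach) : evM (M + N) = evM M + evM N := by
  ext i j
  simp [evM]

theorem evM_sub (M N : Matrix (Fin 2) (Fin 2) Ach) : evM (M - N) = evM M - evM N := by
  ext i j
  simp [evM]

theorem evM_adj (M : Matrix (Fin 2) (Fin 2) Ach) : evM M.adjugate = (evM M).adjugate := by
  ext i j
  fin_cases i <;> fin_cases j <;> simp [evM, Matrix.adjugate_fin_two]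

theorem dvM_mul (v : Tau) (M N : Matrix (Fin 2) (Fin 2) Ach) :
    dvM v (M * N) = dvM v M * evM N + evM M * dvM v N := by
  ext i j
  simp only [dvM, evM, Matrix.map_apply, Matrix.mul_apply, Matrix.add_apply, map_sum,
    Derivation.leibniz, smul_eq_mul, map_add, map_mul, Finset.sum_add_distrib]
  rw [add_comm]
  congr 1
  exact Finset.sum_congr rfl fun k _ => mul_comm _ _

theorem dvM_add (v : Tau) (M N : Matrix (Fin 2) (Fin 2) Ach) :
    dvM v (M + N) = dvM v M + dvM v N := by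
  ext i j
  simp [dvM]

theorem dvM_sub (v : Tau) (M N : Matrix (Fin 2) (Fin 2) Ach) :
    dvM v (M - N) = dvM v M - dvM v N := by
  ext i j
  simp [dvM]

theorem evM_mm (N : Bk) : evM (mm N) = if N = .a ∨ N = .q ∨ N = .u ∨ N = .l then 1 else 0 := by
  ext i j
  by_cases h : N = .a ∨ N = .q ∨ N = .u ∨ N = .l
  · rw [if_pos h]
    simp only [evM, mm, Matrix.map_apply, eval_X, bp0, h, true_and, Matrix.one_apply]
  · rw [if_neg h]
    simp only [evM, mm, Matrix.map_apply, eval_X, bp0, h, false_and, if_false, Matrix.zero_apply]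

theorem dvM_mm (v : Tau) (N : Bk) :
    dvM v (mm N) = if v.1 = N then Matrix.single v.2.1 v.2.2 1 else 0 := by
  obtain ⟨N', s, t⟩ := v
  ext i j
  simp only [dvM, mm, Matrix.map_apply, pderiv_X, Pi.single_apply]
  by_cases h : N' = N
  · subst h
    simp only [if_true, Matrix.single_apply, Prod.mk.injEq, true_and]
    by_cases h1 : s = i ∧ t = j
    · rw [if_pos h1, if_pos ⟨h1.1.symm, h1.2.symm⟩, map_one]
    · rw [if_neg h1, if_neg (fun h2 => h1 ⟨h2.1.symm, h2.2.symm⟩), map_zero]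
  · rw [if_neg h, if_neg (fun h2 => h (Prod.mk.inj h2).1.symm), map_zero, Matrix.zero_apply]

/-- The coefficients of the derivative of the chart at the base point. -/
def cD (N : Bk) (i j : Fin 8) : ℂ :=
  if N = .a ∧ i = 1 ∧ j = 0 then 1
  else if N = .B ∧ i = 2 ∧ j = 0 then 1
  else if N = .B ∧ i = 3 ∧ j = 1 then -1
  else if N = .q ∧ i = 3 ∧ j = 2 then 1
  else if N = .S ∧ i = 4 ∧ j = 2 then 1
  else if N = .u ∧ i = 5 ∧ j = 3 then 1
  else if N = .V ∧ i = 5 ∧ j = 4 then 1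
  else if N = .W ∧ i = 6 ∧ j = 3 then 1
  else if N = .W ∧ i = 7 ∧ j = 5 then -1
  else if N = .l ∧ i = 7 ∧ j = 6 then 1
  else 0

/-- The slice blocks. -/
def isSl (N : Bk) : Prop := N = .p ∨ N = .r ∨ N = .ze ∨ N = .ka

theorem dvM_zero (v : Tau) : dvM v 0 = 0 := by
  ext i j
  simp [dvM]

theorem evM_zero : evM 0 = 0 := by
  ext i j
  simp [evM]

theorem dvM_YB (N : Bk) (s t : Fin 2) (hN : ¬ isSl N) (i j : Fin 8) :
    dvM (N, s, t) (YB i j) = cD N i j • Matrix.single s t 1 := by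
  fin_cases i <;> fin_cases j <;> cases N <;>
    first
    | (exfalso; apply hN; simp only [isSl, reduceCtorEq, or_true, true_or, or_false, false_or]; done)
    | simp [YB, cD, dvM_mul, dvM_add, dvM_sub, evM_mul, evM_add, evM_sub, evM_adj, evM_mm, dvM_mm, dvM_zero]

/-- The blocks of the base point. -/
def cnd (i j : Fin 8) : Prop := (i = 1 ∧ j = 0) ∨ (i = 3 ∧ j = 2) ∨ (i = 5 ∧ j = 3) ∨ (i = 7 ∧ j = 6)

instance (i j : Fin 8) : Decidable (cnd i j) := by unfold cnd; infer_instance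

theorem evM_YB (i j : Fin 8) : evM (YB i j) = if cnd i j then 1 else 0 := by
  fin_cases i <;> fin_cases j <;>
    simp [YB, cnd, evM_mul, evM_add, evM_sub, evM_adj, evM_mm, evM_zero]

theorem smat_N0 (i j : Fin 8) (s t : Fin 2) :
    smat e0 sgN0 (i, s) (j, t) = if cnd i j ∧ s = t then 1 else 0 := by
  have h : ∀ (i j : Fin 8) (s t : Fin 2),
      (sgN0 (i, s) = sgN0 (j, t) ∧ e0 (i, s) = e0 (j, t) + 1) ↔ (cnd i j ∧ s = t) := by
    unfold sgN0 e0 dg0
    decide
  have h1 := h i j s t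
  unfold smat
  by_cases hc : cnd i j ∧ s = t
  · rw [if_pos hc, if_pos (h1.2 hc)]
  · rw [if_neg hc, if_neg (fun h2 => hc (h1.1 h2))]

theorem pt_N0 (k : Co e0) : ptOf e0 (smat e0 sgN0) k = eval bp0 (Ych k) := by
  obtain ⟨⟨⟨i, s⟩, ⟨j, t⟩⟩, h⟩ := k
  have h1 : eval bp0 (YB i j s t) = evM (YB i j) s t := rfl
  show smat e0 sgN0 (i, s) (j, t) = eval bp0 (YB i j s t)
  rw [smat_N0, h1, evM_YB]
  by_cases h2 : cnd i j
  · rw [if_pos h2, Matrix.one_apply]
    by_cases h3 : s = t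
    · rw [if_pos ⟨h2, h3⟩, if_pos h3]
    · rw [if_neg (fun h4 => h3 h4.2), if_neg h3]
  · rw [if_neg h2, if_neg (fun h4 => h2 h4.1), Matrix.zero_apply]

/-- A sum over the coordinates is a sum over all pairs. -/
theorem sum_co {ι : Type} [Fintype ι] [DecidableEq ι] (e : ι → ℤ) (f : ι → ι → ℂ) (ξ : Co e → ℂ) :
    ∑ l : Co e, f l.1.1 l.1.2 * ξ l = ∑ a, ∑ b, f a b * ymat e ξ b a := by
  classical
  rw [← Fintype.sum_prod_type' (fun a b => f a b * ymat e ξ b a)]
  have h1 : ∀ l : Co e, f l.1.1 l.1.2 * ξ l = f l.1.1 l.1.2 * ymat e ξ l.1.2 l.1.1 := by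
    rintro ⟨⟨a, b⟩, h⟩
    rw [ymat, dif_pos h]
  rw [Finset.sum_congr rfl fun l _ => h1 l]
  have h3 : ∑ l : Co e, f l.1.1 l.1.2 * ymat e ξ l.1.2 l.1.1 =
      ∑ p ∈ Finset.univ.filter (fun p : ι × ι => e p.1 = e p.2 + 1), f p.1 p.2 * ymat e ξ p.2 p.1 :=
    (Finset.sum_subtype _ (by simp) (fun p : ι × ι => f p.1 p.2 * ymat e ξ p.2 p.1)).symm
  rw [h3, Finset.sum_filter]
  refine Finset.sum_congr rfl fun p _ => ?_
  by_cases h : e p.1 = e p.2 + 1
  · rw [if_pos h]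
  · rw [if_neg h, ymat, dif_neg h, mul_zero]

theorem dv_sum (N : Bk) (s t : Fin 2) (hN : ¬ isSl N) (ξ : Co e0 → ℂ) :
    ∑ l : Co e0, eval bp0 (pderiv (N, s, t) (Ych l)) * ξ l =
      ∑ i, ∑ j, cD N i j * ymat e0 ξ (j, t) (i, s) := by
  have h1 : ∀ l : Co e0, eval bp0 (pderiv (N, s, t) (Ych l)) * ξ l =
      (fun a b : I0 => cD N a.1 b.1 * (if s = a.2 ∧ t = b.2 then 1 else 0)) l.1.1 l.1.2 * ξ l := by
    intro l
    have h2 : eval bp0 (pderiv (N, s, t) (Ych l)) =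
        dvM (N, s, t) (YB l.1.1.1 l.1.2.1) l.1.1.2 l.1.2.2 := rfl
    rw [h2, dvM_YB N s t hN, Matrix.smul_apply, Matrix.single_apply, smul_eq_mul]
  rw [Finset.sum_congr rfl fun l _ => h1 l,
    sum_co e0 (fun a b : I0 => cD N a.1 b.1 * (if s = a.2 ∧ t = b.2 then 1 else 0)) ξ,
    Fintype.sum_prod_type]
  refine Finset.sum_congr rfl fun i _ => ?_
  rw [Finset.sum_eq_single s]
  · rw [Fintype.sum_prod_type]
    refine Finset.sum_congr rfl fun j _ => ?_
    rw [Finset.sum_eq_single t]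
    · simp only [and_self, if_true, mul_one]
    · intro t' _ ht'
      simp only
      rw [if_neg (fun h => ht' h.2.symm), mul_zero, zero_mul]
    · intro h; exact absurd (Finset.mem_univ _) h
  · intro s' _ hs'
    refine Finset.sum_eq_zero fun b _ => ?_
    simp only
    rw [if_neg (fun h => hs' h.1.symm), mul_zero, zero_mul]
  · intro h; exact absurd (Finset.mem_univ _) h

theorem comm_N0 (y : Matrix I0 I0 ℂ) (h : smat e0 sgN0 * y = y * smat e0 sgN0) (i j : Fin 8)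
    (s t : Fin 2) : (∑ k, if cnd i k then y (k, s) (j, t) else 0) =
      ∑ k, if cnd k j then y (i, s) (k, t) else 0 := by
  have h1 := congrFun (congrFun h (i, s)) (j, t)
  rw [Matrix.mul_apply, Matrix.mul_apply, Fintype.sum_prod_type, Fintype.sum_prod_type] at h1
  have h2 : ∀ k : Fin 8, ∑ u : Fin 2, smat e0 sgN0 (i, s) (k, u) * y (k, u) (j, t) =
      if cnd i k then y (k, s) (j, t) else 0 := by
    intro k
    rw [Finset.sum_eq_single s]
    · rw [smat_N0]
      by_cases h3 : cnd i k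
      · rw [if_pos h3, if_pos ⟨h3, rfl⟩, one_mul]
      · rw [if_neg h3, if_neg (fun h4 => h3 h4.1), zero_mul]
    · intro u _ hu
      rw [smat_N0, if_neg (fun h4 => hu h4.2.symm), zero_mul]
    · intro h; exact absurd (Finset.mem_univ _) h
  have h3 : ∀ k : Fin 8, ∑ u : Fin 2, y (i, s) (k, u) * smat e0 sgN0 (k, u) (j, t) =
      if cnd k j then y (i, s) (k, t) else 0 := by
    intro k
    rw [Finset.sum_eq_single t]
    · rw [smat_N0]
      by_cases h3 : cnd k j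
      · rw [if_pos h3, if_pos ⟨h3, rfl⟩, mul_one]
      · rw [if_neg h3, if_neg (fun h4 => h3 h4.1), mul_zero]
    · intro u _ hu
      rw [smat_N0, if_neg (fun h4 => hu h4.2), mul_zero]
    · intro h; exact absurd (Finset.mem_univ _) h
  rw [Finset.sum_congr rfl fun k _ => h2 k, Finset.sum_congr rfl fun k _ => h3 k] at h1
  exact h1

theorem dv_sum_zero (N : Bk) (s t : Fin 2) (hN : ¬ isSl N) (ξ : Co e0 → ℂ)
    (h : smat e0 sgN0 * ymat e0 ξ = ymat e0 ξ * smat e0 sgN0) :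
    ∑ l : Co e0, eval bp0 (pderiv (N, s, t) (Ych l)) * ξ l = 0 := by
  rw [dv_sum N s t hN]
  set y := ymat e0 ξ with hy
  have H := comm_N0 y h
  have h00 := H 0 0 t s
  have h12 := H 1 2 t s
  have h22 := H 2 2 t s
  have h34 := H 3 4 t s
  have h33 := H 3 3 t s
  have h43 := H 4 3 t s
  have h56 := H 5 6 t s
  have h66 := H 6 6 t s
  simp [Fin.sum_univ_eight, cnd] at h00 h12 h22 h34 h33 h43 h56 h66
  cases N <;>
    first
    | (exfalso; apply hN; simp only [isSl, reduceCtorEq, or_true, true_or, or_false, false_or]; done)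
    | (simp [Fin.sum_univ_eight, cD]; first | assumption | simp_all | (rw [h12]; ring) | (rw [h56]; ring))

/-- **S3.** The label `N0`. -/
theorem inCh_N0 {L : Type} [AddCommGroup L] [Module ℂ L] {W : WMod Tau L} {q : Ach}
    {A : Co e0 → Tau → Ach} (hq : Function.Bijective (W.x q)) (h : Coord q Ych A)
    (hp : eval bp0 q ≠ 0)
    (hb : ∀ η : Tau → ℂ, (∀ v : Tau, ¬ isSl v.1 → η v = 0) → W.InCh bp0 η) (ξ : Co e0 → ℂ)
    (hξ : smat e0 sgN0 * ymat e0 ξ = ymat e0 ξ * smat e0 sgN0) :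
    (W.coord hq h).InCh (ptOf e0 (smat e0 sgN0)) ξ := by
  refine (hb (fun j => ∑ l, eval bp0 (pderiv j (Ych l)) * ξ l) ?_).coord_pull hq h hp pt_N0
    fun j => rfl
  rintro ⟨N, s, t⟩ hN
  exact dv_sum_zero N s t hN ξ hξ

theorem q0_bp0 : eval bp0 q0 = 1 := by
  have h : ∀ N : Bk, eval bp0 (mm N).det = (evM (mm N)).det := by
    intro N
    simp [evM, Matrix.det_fin_two]
  rw [q0, map_mul, map_mul, map_mul, h, h, h, h]
  simp [evM_mm]

end Pool.DM.BS3
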