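import Pool.Agent.Work.MP_c20ce7_bE.Rel

set_option autoImplicit false

/-! Block S1 of the source side: the polynomials of `ksClosed` in the chart. -/

open MvPolynomial Matrix

noncomputable section

namespace Pool.DM.BS1

section R1

variable {R : Type} [CommRing R] {l m n : Type} [Fintype m] [Fintype n] [Fintype l]

/-- All `2 × 2` minors vanish. -/
def R1 (M : Matrix m n R) : Prop := ∀ i i' j j', M i j * M i' j' = M i j' * M i' j

theorem R1.mul_left {M : Matrix m n R} (h : R1 M) (A : Matrix l m R) : R1 (A * M) := by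
  intro i i' j j'
  simp only [Matrix.mul_apply, Finset.sum_mul_sum]
  refine Finset.sum_congr rfl fun k _ => Finset.sum_congr rfl fun k' _ => ?_
  have := h k k' j j'
  linear_combination (A i k * A i' k') * this

theorem R1.mul_right {M : Matrix m n R} (h : R1 M) (A : Matrix n l R) : R1 (M * A) := by
  intro i i' j j'
  simp only [Matrix.mul_apply, Finset.sum_mul_sum]
  rw [Finset.sum_comm]
  refine Finset.sum_congr rfl fun k _ => Finset.sum_congr rfl fun k' _ => ?_
  have := h i i' k k'
  linear_combination (-(A k j' * A k' j)) * this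

theorem det2 {M : Matrix m n R} (h : R1 M) (f : Fin 2 → m) (g : Fin 2 → n) :
    (M.submatrix f g).det = 0 := by
  rw [Matrix.det_fin_two]
  simp only [Matrix.submatrix_apply]
  rw [h, sub_self]

theorem det3 (A : Matrix m (Fin 2) R) (B : Matrix (Fin 2) n R) (f : Fin 3 → m) (g : Fin 3 → n) :
    ((A * B).submatrix f g).det = 0 := by
  rw [Matrix.det_fin_three]
  simp only [Matrix.submatrix_apply, Matrix.mul_apply, Fin.sum_univ_two]
  ring

end R1

section

variable {R : Type} [CommRing R] (π : Ach →+* R)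

/-- The blocks over `R`. -/
def bl (N : Bk) : Matrix (Fin 2) (Fin 2) R := π.mapMatrix (mm N)

/-- The blocks of the point over `R`. -/
def YR (i j : Fin 8) : Matrix (Fin 2) (Fin 2) R := π.mapMatrix (YB i j)

theorem sq (i j : Fin 8) (s t : Fin 2) :
    ((YM.map π) ^ 2) (i, s) (j, t) = (∑ k, YR π i k * YR π k j) s t := by
  rw [pow_two, Matrix.mul_apply, Fintype.sum_prod_type, Matrix.sum_apply]
  refine Finset.sum_congr rfl fun k _ => ?_
  rw [Matrix.mul_apply]
  rfl

theorem adj_bl (N : Bk) : π.mapMatrix (mm N).adjugate = (bl π N).adjugate := π.map_adjugate (mm N)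

theorem YR_eq (i j : Fin 8) : YR π i j =
    if i = 1 ∧ j = 0 then bl π .a
    else if i = 2 ∧ j = 0 then bl π .B * bl π .a
    else if i = 3 ∧ j = 1 then bl π .p - bl π .q * bl π .B - bl π .V * bl π .r
    else if i = 3 ∧ j = 2 then bl π .q
    else if i = 4 ∧ j = 1 then
      bl π .S * (bl π .p - bl π .q * bl π .B - bl π .V * bl π .r) + bl π .r
    else if i = 4 ∧ j = 2 then bl π .S * bl π .q
    else if i = 5 ∧ j = 3 then bl π .u - bl π .u * bl π .V * bl π .S
    else if i = 5 ∧ j = 4 then bl π .u * bl π .V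
    else if i = 6 ∧ j = 3 then
      bl π .W * (bl π .u - bl π .u * bl π .V * bl π .S) -
        (bl π .l).adjugate * bl π .ze * bl π .S
    else if i = 6 ∧ j = 4 then bl π .W * (bl π .u * bl π .V) + (bl π .l).adjugate * bl π .ze
    else if i = 7 ∧ j = 5 then bl π .ka * (bl π .u).adjugate - bl π .l * bl π .W
    else if i = 7 ∧ j = 6 then bl π .l
    else 0 := by
  unfold YR YB
  simp only [apply_ite π.mapMatrix, map_mul, map_sub, map_add, map_zero, adj_bl]
  rfl

theorem sq30 : ∑ k, YR π 3 k * YR π k 0 = (bl π .p - bl π .V * bl π .r) * bl π .a := by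
  simp [Fin.sum_univ_eight, YR_eq]
  noncomm_ring

theorem sq40 : ∑ k, YR π 4 k * YR π k 0 =
    (bl π .S * (bl π .p - bl π .V * bl π .r) + bl π .r) * bl π .a := by
  simp [Fin.sum_univ_eight, YR_eq]
  noncomm_ring

theorem sq51 : ∑ k, YR π 5 k * YR π k 1 = bl π .u * (bl π .p - bl π .q * bl π .B) := by
  simp [Fin.sum_univ_eight, YR_eq]
  noncomm_ring

theorem sq52 : ∑ k, YR π 5 k * YR π k 2 = bl π .u * bl π .q := by
  simp [Fin.sum_univ_eight, YR_eq]
  noncomm_ring

theorem sq61 : ∑ k, YR π 6 k * YR π k 1 = bl π .W * (bl π .u * (bl π .p - bl π .q * bl π .B)) +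
    (bl π .l).adjugate * (bl π .ze * bl π .r) := by
  simp [Fin.sum_univ_eight, YR_eq]
  noncomm_ring

theorem sq62 : ∑ k, YR π 6 k * YR π k 2 = bl π .W * (bl π .u * bl π .q) := by
  simp [Fin.sum_univ_eight, YR_eq]
  noncomm_ring

theorem sq73 : ∑ k, YR π 7 k * YR π k 3 =
    (bl π .u).det • (bl π .ka * (1 - bl π .V * bl π .S)) - (bl π .l).det • (bl π .ze * bl π .S) := by
  simp [Fin.sum_univ_eight, YR_eq]
  have h1 := (bl π .u).adjugate_mul
  have h2 := (bl π .l).mul_adjugate
  have h3 : (bl π .ka * (bl π .u).adjugate - bl π .l * bl π .W) *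
      (bl π .u - bl π .u * bl π .V * bl π .S) +
      bl π .l * (bl π .W * (bl π .u - bl π .u * bl π .V * bl π .S) -
        (bl π .l).adjugate * bl π .ze * bl π .S) =
      bl π .ka * ((bl π .u).adjugate * bl π .u) * (1 - bl π .V * bl π .S) -
        (bl π .l * (bl π .l).adjugate) * bl π .ze * bl π .S := by
    noncomm_ring
  rw [h3, h1, h2]
  simp [Matrix.mul_assoc]

theorem sq74 : ∑ k, YR π 7 k * YR π k 4 =
    (bl π .u).det • (bl π .ka * bl π .V) + (bl π .l).det • bl π .ze := by
  simp [Fin.sum_univ_eight, YR_eq]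
  have h1 := (bl π .u).adjugate_mul
  have h2 := (bl π .l).mul_adjugate
  have h3 : (bl π .ka * (bl π .u).adjugate - bl π .l * bl π .W) *
      (bl π .u * bl π .V) +
      bl π .l * (bl π .W * (bl π .u * bl π .V) + (bl π .l).adjugate * bl π .ze) =
      bl π .ka * ((bl π .u).adjugate * bl π .u) * bl π .V +
        (bl π .l * (bl π .l).adjugate) * bl π .ze := by
    noncomm_ring
  rw [h3, h1, h2]
  simp [Matrix.mul_assoc]

/-- The stacked matrix `(p ; r)`. -/
def PR : Matrix (Fin 2 × Fin 2) (Fin 2) R := fun a t =>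
  (if a.1 = 0 then bl π .p else bl π .r) a.2 t

/-- The matrix `(κ, ζ)`. -/
def KZ : Matrix (Fin 2) (Fin 2 × Fin 2) R := fun s a =>
  (if a.1 = 0 then bl π .ka else bl π .ze) s a.2

/-- The left factor for `V1 → V3`. -/
def LL : Matrix I0 (Fin 2 × Fin 2) R := fun a c =>
  (if a.1 = 3 then (if c.1 = 0 then 1 else - bl π .V)
    else (if c.1 = 0 then bl π .S else 1 - bl π .S * bl π .V)) a.2 c.2

/-- The right factor for `V3 → V5`. -/
def GR : Matrix (Fin 2 × Fin 2) I0 R := fun c a =>
  (if a.1 = 3 then (if c.1 = 0 then (bl π .u).det • (1 - bl π .V * bl π .S)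
      else - ((bl π .l).det • bl π .S))
    else (if c.1 = 0 then (bl π .u).det • bl π .V else (bl π .l).det • 1)) c.2 a.2

/-- The left factor for `V2 → V4`. -/
def HL : Matrix I0 (Fin 2) R := fun a c => (if a.1 = 5 then 1 else bl π .W) a.2 c

/-- The right factor for `V2 → V4`. -/
def HR : Matrix (Fin 2) I0 R := fun c a =>
  (if a.1 = 1 then bl π .u * (bl π .p - bl π .q * bl π .B) else bl π .u * bl π .q) c a.2

theorem e3 (a : I0) (h : e0 a = 3) : a.1 = 3 ∨ a.1 = 4 := by
  revert a; unfold e0 dg0; decide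

theorem e1 (a : I0) (h : e0 a = 1) : a.1 = 0 := by
  revert a; unfold e0 dg0; decide

theorem e2 (a : I0) (h : e0 a = 2) : a.1 = 1 ∨ a.1 = 2 := by
  revert a; unfold e0 dg0; decide

theorem e4 (a : I0) (h : e0 a = 4) : a.1 = 5 ∨ a.1 = 6 := by
  revert a; unfold e0 dg0; decide

theorem e5 (a : I0) (h : e0 a = 5) : a.1 = 7 := by
  revert a; unfold e0 dg0; decide

theorem f31 (a b : I0) (ha : e0 a = 3) (hb : e0 b = 1) :
    ((YM.map π) ^ 2) a b = (LL π * PR π * bl π .a) a b.2 := by
  obtain ⟨i, s⟩ := a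
  obtain ⟨j, t⟩ := b
  have hj : j = 0 := e1 _ hb
  subst hj
  have h1 : (LL π * PR π * bl π .a) (i, s) t =
      (((if i = 3 then 1 else bl π .S) * bl π .p +
        (if i = 3 then - bl π .V else 1 - bl π .S * bl π .V) * bl π .r) * bl π .a) s t := by
    rw [Matrix.mul_apply, Matrix.mul_apply]
    refine Finset.sum_congr rfl fun k _ => ?_
    congr 1
    rw [Matrix.mul_apply, Fintype.sum_prod_type, Fin.sum_univ_two, Matrix.add_apply,
      Matrix.mul_apply, Matrix.mul_apply]
    by_cases h3 : i = 3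
    · subst h3
      rfl
    · simp only [LL, PR, if_neg h3]
      rfl
  rw [sq, h1]
  rcases e3 _ ha with h | h
  · simp only at h
    subst h
    rw [sq30, if_pos rfl, if_pos rfl]
    have h2 : bl π .p - bl π .V * bl π .r = 1 * bl π .p + - bl π .V * bl π .r := by noncomm_ring
    rw [h2]
  · simp only at h
    subst h
    rw [sq40, if_neg (by decide), if_neg (by decide)]
    have h2 : bl π .S * (bl π .p - bl π .V * bl π .r) + bl π .r =
        bl π .S * bl π .p + (1 - bl π .S * bl π .V) * bl π .r := by noncomm_ring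
    rw [h2]

theorem f53 (a b : I0) (ha : e0 a = 5) (hb : e0 b = 3) :
    ((YM.map π) ^ 2) a b = (KZ π * GR π) a.2 b := by
  obtain ⟨i, s⟩ := a
  obtain ⟨j, t⟩ := b
  have hi : i = 7 := e5 _ ha
  subst hi
  have h1 : (KZ π * GR π) s (j, t) =
      (bl π .ka * (if j = 3 then (bl π .u).det • (1 - bl π .V * bl π .S) else
        (bl π .u).det • bl π .V) +
       bl π .ze * (if j = 3 then - ((bl π .l).det • bl π .S) else (bl π .l).det • 1)) s t := by
    rw [Matrix.mul_apply, Fintype.sum_prod_type, Fin.sum_univ_two, Matrix.add_apply,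
      Matrix.mul_apply, Matrix.mul_apply]
    by_cases h3 : j = 3
    · subst h3
      rfl
    · simp only [GR, KZ, if_neg h3]
      rfl
  rw [sq]
  show _ = (KZ π * GR π) s (j, t)
  rw [h1]
  rcases e3 _ hb with h | h
  · simp only at h
    subst h
    rw [sq73, if_pos rfl, if_pos rfl, Matrix.mul_smul, mul_neg, Matrix.mul_smul, ← sub_eq_add_neg]
  · simp only at h
    subst h
    rw [sq74, if_neg (by decide), if_neg (by decide), Matrix.mul_smul, Matrix.mul_smul, mul_one]

theorem f42 (hzr : bl π .ze * bl π .r = 0) (a b : I0) (ha : e0 a = 4) (hb : e0 b = 2) :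
    ((YM.map π) ^ 2) a b = (HL π * HR π) a b := by
  obtain ⟨i, s⟩ := a
  obtain ⟨j, t⟩ := b
  have h1 : (HL π * HR π) (i, s) (j, t) = ((if i = 5 then 1 else bl π .W) *
      (if j = 1 then bl π .u * (bl π .p - bl π .q * bl π .B) else bl π .u * bl π .q)) s t := by
    rw [Matrix.mul_apply, Matrix.mul_apply]
    rfl
  rw [sq, h1]
  rcases e4 _ ha with h | h <;> rcases e2 _ hb with h' | h' <;> simp only at h h' <;> subst h <;>
    subst h'
  · rw [sq51, if_pos rfl, if_pos rfl, one_mul]
  · rw [sq52, if_pos rfl, if_neg (by decide), one_mul]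
  · rw [sq61, if_neg (by decide), if_pos rfl, hzr, mul_zero, add_zero]
  · rw [sq62, if_neg (by decide), if_neg (by decide)]

theorem f51 (hzr : bl π .ze * bl π .r = 0) (hkp : bl π .ka * bl π .p = 0) (a b : I0)
    (ha : e0 a = 5) (hb : e0 b = 1) : ((YM.map π) ^ 4) a b = 0 := by
  obtain ⟨i, s⟩ := a
  obtain ⟨j, t⟩ := b
  have hi : i = 7 := e5 _ ha
  have hj : j = 0 := e1 _ hb
  subst hi
  subst hj
  have h1 : ((YM.map π) ^ 4) (7, s) (0, t) =
      (∑ m, (∑ k, YR π 7 k * YR π k m) * (∑ k, YR π m k * YR π k 0)) s t := by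
    have h2 : (YM.map π) ^ 4 = (YM.map π) ^ 2 * (YM.map π) ^ 2 := by rw [← pow_add]
    rw [h2, Matrix.mul_apply, Fintype.sum_prod_type, Matrix.sum_apply]
    refine Finset.sum_congr rfl fun m _ => ?_
    rw [Matrix.mul_apply]
    refine Finset.sum_congr rfl fun c _ => ?_
    rw [sq, sq]
  have h0 : ∀ m : Fin 8, m ≠ 3 → m ≠ 4 → (∑ k, YR π 7 k * YR π k m) *
      (∑ k, YR π m k * YR π k 0) = 0 := by
    intro m h3 h4
    have h5 : ∑ k, YR π m k * YR π k 0 = 0 := by
      have h6 : ∀ k : Fin 8, k ≠ 1 → k ≠ 2 → YR π k 0 = 0 := by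
        intro k h1 h2
        rw [YR_eq]
        simp [h1, h2]
      have h7 : YR π m 1 = 0 := by rw [YR_eq]; simp [h3, h4]
      have h8 : YR π m 2 = 0 := by rw [YR_eq]; simp [h3, h4]
      refine Finset.sum_eq_zero fun k _ => ?_
      by_cases hk1 : k = 1
      · rw [hk1, h7, zero_mul]
      · by_cases hk2 : k = 2
        · rw [hk2, h8, zero_mul]
        · rw [h6 k hk1 hk2, mul_zero]
    rw [h5, mul_zero]
  have h2 : (∑ m, (∑ k, YR π 7 k * YR π k m) * (∑ k, YR π m k * YR π k 0)) =
      (∑ k, YR π 7 k * YR π k 3) * (∑ k, YR π 3 k * YR π k 0) +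
        (∑ k, YR π 7 k * YR π k 4) * (∑ k, YR π 4 k * YR π k 0) := by
    rw [Fin.sum_univ_eight (fun m => (∑ k, YR π 7 k * YR π k m) * (∑ k, YR π m k * YR π k 0)),
      h0 0 (by decide) (by decide), h0 1 (by decide) (by decide), h0 2 (by decide) (by decide),
      h0 5 (by decide) (by decide), h0 6 (by decide) (by decide), h0 7 (by decide) (by decide)]
    simp only [zero_add, add_zero]
  rw [h1, h2, sq73, sq30, sq74, sq40]
  have h3 : ((bl π .u).det • (bl π .ka * (1 - bl π .V * bl π .S)) -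
      (bl π .l).det • (bl π .ze * bl π .S)) * ((bl π .p - bl π .V * bl π .r) * bl π .a) +
      ((bl π .u).det • (bl π .ka * bl π .V) + (bl π .l).det • bl π .ze) *
        ((bl π .S * (bl π .p - bl π .V * bl π .r) + bl π .r) * bl π .a) =
      (bl π .u).det • ((bl π .ka * bl π .p) * bl π .a) +
        (bl π .l).det • ((bl π .ze * bl π .r) * bl π .a) := by
    simp only [sub_mul, add_mul, smul_mul_assoc, mul_sub, mul_add, mul_one, smul_sub, smul_add,
      mul_assoc]
    abel
  rw [h3, hzr, hkp]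
  simp

end

/-- **S1.** -/
theorem p_S1 : Stmt_S1 := by
  intro I hI P hP
  set π := Ideal.Quotient.mk I with hπ
  have mem : ∀ P : Ach, π P = 0 → P ∈ I := fun P h => Ideal.Quotient.eq_zero_iff_mem.1 h
  have memz : ∀ P ∈ I, π P = 0 := fun P h => Ideal.Quotient.eq_zero_iff_mem.2 h
  have hzr : bl π .ze * bl π .r = 0 := by
    ext s t
    have := memz _ (hI.zr s t)
    rw [bl, bl, ← map_mul]
    exact this
  have hkp : bl π .ka * bl π .p = 0 := by
    ext s t
    have := memz _ (hI.kp s t)
    rw [bl, bl, ← map_mul]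
    exact this
  have hPR : R1 (PR π) := by
    intro a a' s t
    have h := memz _ (hI.pr (if a.1 = 0 then .p else .r) (if a'.1 = 0 then .p else .r)
      (by split_ifs <;> simp) (by split_ifs <;> simp) a.2 a'.2 s t)
    rw [map_sub, map_mul, map_mul, sub_eq_zero] at h
    have e : ∀ (a : Fin 2 × Fin 2) (t : Fin 2), PR π a t = π (mm (if a.1 = 0 then .p else .r) a.2 t) := by
      intro a t
      unfold PR
      split_ifs <;> rfl
    rw [e, e, e, e]
    exact h
  have hKZ : R1 (KZ π) := by
    intro s t a a'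
    have h := memz _ (hI.kz (if a.1 = 0 then .ka else .ze) (if a'.1 = 0 then .ka else .ze)
      (by split_ifs <;> simp) (by split_ifs <;> simp) a.2 a'.2 s t)
    rw [map_sub, map_mul, map_mul, sub_eq_zero] at h
    have e : ∀ (s : Fin 2) (a : Fin 2 × Fin 2), KZ π s a = π (mm (if a.1 = 0 then .ka else .ze) s a.2) := by
      intro s a
      unfold KZ
      split_ifs <;> rfl
    rw [e, e, e, e, h, mul_comm]
  have det_map : ∀ (n k : ℕ) (f g : Fin k → I0), π ((YM ^ n).submatrix f g).det =
      (((YM.map π) ^ n).submatrix f g).det := by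
    intro n k f g
    have h1 : (YM ^ n).map π = (YM.map π) ^ n := map_pow (π.mapMatrix) YM n
    rw [← h1, π.map_det]
    rfl
  rcases hP with ((hP | hP) | hP) | hP
  · obtain ⟨f, g, h, rfl⟩ := hP
    apply mem
    rw [bind_minor, det_map]
    have h1 : ((YM.map π) ^ 2).submatrix f g = (LL π * PR π * bl π .a).submatrix f (fun l => (g l).2) := by
      ext l l'
      exact f31 π _ _ ((h l).1.trans (by norm_num)) ((h l').2.trans (by norm_num))
    rw [h1]
    exact det2 ((hPR.mul_left _).mul_right _) _ _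
  · obtain ⟨f, g, h, rfl⟩ := hP
    apply mem
    rw [bind_minor, det_map]
    have h1 : ((YM.map π) ^ 2).submatrix f g = (HL π * HR π).submatrix f g := by
      ext l l'
      exact f42 π hzr _ _ ((h l).1.trans (by norm_num)) ((h l').2.trans (by norm_num))
    rw [h1]
    exact det3 _ _ _ _
  · obtain ⟨f, g, h, rfl⟩ := hP
    apply mem
    rw [bind_minor, det_map]
    have h1 : ((YM.map π) ^ 2).submatrix f g = (KZ π * GR π).submatrix (fun l => (f l).2) g := by
      ext l l'
      exact f53 π _ _ ((h l).1.trans (by norm_num)) ((h l').2.trans (by norm_num))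
    rw [h1]
    exact det2 (hKZ.mul_right _) _ _
  · obtain ⟨f, g, h, rfl⟩ := hP
    apply mem
    rw [bind_minor, det_map, Matrix.det_fin_one]
    exact f51 π hzr hkp _ _ ((h 0).1.trans (by norm_num)) ((h 0).2.trans (by norm_num))

end Pool.DM.BS1
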